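import Mathlib
import Pool.Agent.Run7.h8.IC.Conc

/-!
# The Mumford-Tate conjecture for abelian varieties with a Frobenius element in CM fields with
isolated cycles of automorphisms

Let `A` be an abelian variety over a number field (or a finitely generated subfield of the
complex numbers), of any dimension and with arbitrary endomorphisms, which has good reduction at
ONE place `v`, with a residue field of `p ^ a` elements, such that the characteristic polynomial
of the Frobenius element at `v` is the product of the minimal polynomials of Weil numbers `π i`
(`HasFrobenius`) as follows.

The Weil numbers. Let `π i` be Weil numbers for `q = p ^ a` (algebraic integers with `π i * conj
(π i) = q`) in CM fields `K i`, finitely many. For a CM subfield `T` of `K i` let `unitNorm` be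
the norm `N` of `π i` to `T`, normalised to absolute value one: `N ^ 2 / p ^ (a [K i : T])`. The
slopes of the `π i` are arbitrary. There are two assumptions.

* (`Separated`) Different embeddings of CM subfields `T i`, `T i'` of the fields (equal subfields
  if `i = i'`) never map positive powers of these numbers to the same complex number. For one
  Weil number `π` in `K` this is equivalent to `NormsGenerate`: for all CM subfields `T` of `K`,
  all positive powers of the normalised norm to `T` generate the field `T`. This condition is
  necessary: exotic classes (for instance of Weil type) come from norms some powers of which lie
  in smaller fields.
* (`Cyclic`) For every family of CM subfields `T i` of the `K i`, `i ∈ S ≠ ∅`, some automorphism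
  `τ` of `ℂ` has an *isolated cycle* on the complex embeddings of the `T i` (`IsolatedCycle`):
  for one embedding `ψ` the cycle of `ψ` under `τ` has `n > 1` elements, where `n` is any power
  of any prime number (or `n = 2 ^ a r ^ b`, `a > 0`, `r` an odd prime number, and the cycle is
  stable under complex conjugation), and `n` does not divide the length of any other cycle,
  except for that of the complex conjugate of `ψ`. By the theorem of Chebotarev this is a
  condition on the decomposition of prime numbers: some prime number, unramified in the `T i`,
  has exactly one prime ideal, or one pair of complex conjugate prime ideals, in the fields `T i`
  whose residue degree is divisible by `n`, and this residue degree is `n`. Alternatively the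
  family may have one of the properties of the starting files: some prime number divides one of
  the discriminants of the `T i`, but its third power does not divide their product; or some
  automorphism of `ℂ` moves at least one and at most four embeddings; and for norms with only two
  slopes `third power` and `four` may be replaced by `fourth power` and `six`.

An example (second part of the theorem, `HoldsForPrimePower`), in which the condition on the CM
subfields is not a hypothesis any more: `K` is **any** CM field of degree `2 r ^ k`, `r` a prime
number, such that some automorphism of `ℂ` acts on the pairs of complex conjugate embeddings of
`K` as one cycle (`OneOrbit`; for instance some prime number is inert in the maximal real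
subfield of `K`, or is totally ramified there and does not divide the degree). `K` may have many
CM subfields. Then the conclusion is true for every Weil number `π` in `K` with `NormsGenerate`,
and arbitrary slopes. So for abelian varieties of prime power dimension with such a Frobenius
element exotic classes can only be explained by norms to CM subfields. (For `k = 1`, prime
dimension, an automorphism as in `OneOrbit` always exists, and the result is similar to theorems
of Tankeev and Zarhin.)

The conclusion (`MumfordTateFor`). For all prime numbers `ℓ` **all Tate classes in the tensor
powers of `H^1(A)` (and so in the cohomology of all powers of `A`) are linear combinations of
Hodge classes, and even of products of Hodge classes of degree two** (`MumfordTateStrong`).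
Together with the theorem of Deligne (Hodge classes are Tate classes) this is the equality of the
Mumford-Tate group (over `ℚ_ℓ`) and of the connected component of the `ℓ`-adic monodromy group:
both are reductive, so that they are determined by their invariants in the spaces `(H^1)^{⊗ 2
m}(m)`. So the Mumford-Tate conjecture holds for `A`, and the Hodge and the Tate conjecture hold
for all powers of `A`. In the formal statement (`IsRealization`) `W` is `H_1(A, ℚ)`, `T` the
tangent space at the origin and `per : W → T` the inclusion, `ω₀` is the form given by a
polarization; `V` is the rational Tate module with the comparison map `comp : W → V`, the action
`ρ` of the Galois group and the Weil pairing `ω`; `χ` is the cyclotomic character. The theorems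
of Faltings on endomorphisms and on semisimplicity are part of the data. That the maximality of
the angle rank for one Frobenius element implies this conclusion is a theorem of the starting
files (TH170.FT).

The starting files (MP_021685_ag OneFrobenius, MP_0fca13_ag TateRingOfPowers) have the criterion
for families of CM subfields with the alternative properties in `Cyclic`, and with automorphisms
which act on the pairs of conjugate embeddings as one cycle of odd *prime* length and *fix all
other embeddings*. New is that the length can be any prime power, including powers of two, or `2
^ a r ^ b`, and that the other embeddings can move, as long as the lengths of their cycles are
not divisible by `n`; so the second part of the theorem is new for all `k > 1`. The reduction to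
the slopes and the descent to the CM subfields are those of the starting files
(`Pool.Agent.W527`).

The proof. A multiplicative relation between the conjugates of the `π i` gives an odd function
`c` on the embeddings of a family of CM subfields, as small as possible, such that `∑ c (z) w (g
z) = 0` for all automorphisms `g`, where `w` is the function given by the slopes of the norms. We
apply this to `g τ ^ j`, multiply by `ζ ^ (-j)`, where `ζ` is a primitive `n`-th root of unity,
and sum over `j`. The cycles whose length is not divisible by `n` do not contribute. So for all
automorphisms `h`, `g` the product of `∑ c (h τ ^ i ψ) ζ ^ i` and of `∑ w (g τ ^ j ψ) ζ ^ (-j)`
is zero. If the first sum is zero for all `h`, then the irreducibility of the cyclotomic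
polynomial gives `c (h ψ) = c (h τ ^ (n / r) ψ)` for all `h`, so that `c` comes from smaller CM
subfields, a contradiction. If not, then in the same way `w (g ψ) = w (g τ ^ (n / r) ψ)` for all
`g`, which contradicts `Separated`. So the angle rank is maximal: the only multiplicative
relations are those given by `π i * conj (π i) = q`.
-/

set_option autoImplicit false

namespace Pool.Agent.Results.MP_33b3f9_ag.IsolatedCycles

open Run7.h370.MR Run7.h8.IC

/-- **The Mumford-Tate conjecture for the abelian varieties with a Frobenius element in CM
fields with isolated cycles.** -/
theorem result :
    HoldsForCyclic (fun p _ a _ _ K _ _ _ π => MumfordTateFor p a K π) ∧
    HoldsForPrimePower (fun p _ a _ _ K _ _ _ π => MumfordTateFor p a K π) :=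
  ⟨holdsForCyclic mumfordTateFor, primePower_of_cyclic (holdsForCyclic mumfordTateFor)⟩

end Pool.Agent.Results.MP_33b3f9_ag.IsolatedCycles
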