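import Mathlib
import Pool.Agent.Run7.h370.MR.Conc

/-!
# The Mumford-Tate conjecture for abelian varieties with a Frobenius element whose slopes are
nondegenerate modulo a prime

Let `E k` be finitely many CM fields and `π k i`, `i : I k`, finitely many Weil numbers for `q = p ^ a`
in `E k`. The slope deviation of `π k i` is the function `dev p a (π k i) τ = 2 ord_p (τ (π k i)) - a` of
the embeddings `τ` of `E k` in the algebraic closure of `ℚ_p`; its values are `a (2 λ - 1)` for the
slopes `λ` of the abelian variety. Nothing is assumed about the Galois groups of the fields. Different
fields are flipped (`FieldsFlipped`): for complex embeddings `φ` of `E k` and `ψ` of `E l`, `k ≠ l`,
some automorphism of `ℂ` fixes one of them and maps the other one to its complex conjugate. This is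
no condition if there is only one field, and it is true if the normal closures of the fields are
linearly disjoint. There are three conditions on the slopes:

1. (`SlopesModPrime`) For each `k` let `r k` be a prime number. The slope deviations of the `π k i`,
  `i : I k`, are the multiples `κ * u i` of one number `κ ≠ 0`, with integral functions `u i`, and there
  is a group `H` of automorphisms of the algebraic closure of `ℚ_p` each of which acts on the set of
  the embeddings `τ` of `E k` with an order that is a power of `r k` (so this is any subgroup of
  `r k`-power order of the Galois group of the normal closure, for instance a Sylow subgroup, with
  any orbits), such that the functions `u i` are nondegenerate modulo `r k` (`NondegenerateMod`): if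
  `b i` are functions on the embeddings with values in `ℤ / r k`, invariant under `H`, with
  `b i (conj τ) = - b i τ` and `∑ i, ∑ τ, b i τ * u i (g τ) = 0` for all automorphisms `g`, the sum
  over representatives `τ` of the pairs of conjugate embeddings, then all `b i` are zero. So for each
  pair of conjugate orbits of `H` there is one unknown number modulo `r k` for each `i`, and the
  condition is that the linear equations for them, one for each `g`, have only the trivial solution.
2. (`TwoAdicSlopes`) There is one Weil number `π k` for each `k`, and `E k` is an extension of 2-power
  degree of a field `R k` whose normal closure over `ℚ` has odd degree. For an embedding `σ` of `R k`
  let `N σ` (`oddPairs`) be the number of the pairs of conjugate embeddings `τ` over `σ` with odd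
  `u τ`. The condition is that there is no function `β ≠ 0` with values modulo `2` such that
  `∑ σ, β σ * N (g σ) = 0` for all automorphisms `g`.
3. (`OneOddEmbedding`) The same, where `N σ` is odd for exactly one embedding `σ` of `R k`. For
  instance, let `R` be cyclic of degree three and `[E : R] = 2 ^ (t + 1)`, and let all slopes of the
  abelian variety, of dimension `3 * 2 ^ t`, be `0`, `1 / 2` or `1`: then `N σ` is the number of the
  embeddings over `σ` with slope `0`, so the `p`-rank is the sum of the three numbers `N σ`, and the
  condition is that exactly one of them is odd.

The conclusion (`MumfordTateFor`). Let `A` be an abelian variety over a number field (or a finitely generated
subfield of the complex numbers), with arbitrary endomorphisms, which has good reduction at some place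
`v`, with a residue field of `p ^ a` elements. Suppose that the characteristic polynomial of the
Frobenius element at `v` is the product of the minimal polynomials of the Weil numbers `π k i`
(`HasFrobenius`). Then for all prime numbers `ℓ` **all Tate classes in the
tensor powers of `H^1(A)` (and so in the cohomology of all powers of `A`) are linear combinations of
Hodge classes, and even of products of Hodge classes of degree two** (`MumfordTateStrong`). Together
with the theorem of Deligne (Hodge classes are Tate classes) this is the equality of the Mumford-Tate
group (over `ℚ_ℓ`) and of the connected component of the `ℓ`-adic monodromy group: both are reductive,
so that they are determined by their invariants in the spaces `(H^1)^{⊗ 2 m}(m)`. So the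
Mumford-Tate conjecture holds for `A`, and the Hodge and the Tate conjecture hold for all powers of
`A`. In the formal statement (`IsRealization`) `W` is `H_1(A, ℚ)`, `T` the tangent space at the origin
and `per : W → T` the inclusion, `ω₀` is the form given by a polarization; `V` is the rational Tate
module with the comparison map `comp : W → V`, the action `ρ` of the Galois group and the Weil pairing
`ω`; `χ` is the cyclotomic character. The theorems of Faltings on endomorphisms and on semisimplicity
are part of the data. That the maximality of the angle rank for one Frobenius element implies this
conclusion is a theorem of the starting files (TH170.FT).

The starting files contain criteria of this kind for one Weil number in each field: `PrimePowerCentre`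
and `OddClasses` of MP_0d42ed_ag (where the `r`-group is transitive on the pairs of conjugate
embeddings; so the third part is not new for `R = ℚ` as far as the criterion is concerned),
`OneFrobeniusSignature` and `FrobeniusPrimePower` (odd `r`, transitive on the embeddings over those of
an imaginary quadratic field), `OneFrobeniusTowers` (towers over CM fields, odd `r`). New here are
arbitrary groups of prime power order with several orbits, several Weil numbers in the same field, and
the 2-adic towers. The conclusion is derived from the criterion by theorems of the starting files.

The proof. Suppose that a product of powers `φ (π k i) ^ n (k, i, φ)` is a power of `q`, up to a root of
unity. The `p`-adic valuations of its images under all automorphisms give relations, for each field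
separately since the fields are flipped: `∑ i, ∑ φ, c i φ * u i (g φ) = 0` for all `g`, where
`c i φ = n i φ - n i (conj φ)`. If `c ≠ 0` we divide it by the greatest common divisor of its values and
reduce modulo `r`. The relations have to be restricted to representatives of the pairs of conjugate
embeddings before the reduction (the restricted relations are still true, as the two halves of the sum
are equal; for `r = 2` this is essential, since modulo `2` there are no signs). So the space of the odd
functions modulo `r` with all the relations is not zero. Its number of elements is a power of `r`, the
group `H` acts on it through a group of `r`-power order, so it contains a nonzero function which is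
invariant under `H`, a contradiction. So the angle rank is maximal (`MaximalAngleRank`). For a 2-adic
tower one takes for `H` the preimage of a Sylow 2-subgroup of the Galois group: it acts trivially on
the embeddings of `R`, since the normal closure of `R` has odd degree, and transitively on the
embeddings of `E` over each of them. The complex conjugation is the identity on `R`.
-/

set_option autoImplicit false

namespace Pool.Agent.Results.MP_33b3f9_ag.SlopesModPrime

open Run7.h370.MR

/-- **The Mumford-Tate conjecture for the abelian varieties with a Frobenius element whose slopes are
nondegenerate modulo a prime number.** -/
theorem result :
    WeilModular (fun p _ a _ _ K _ _ _ π => MumfordTateFor p a K π) ∧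
    WeilTwoAdic (fun p _ a _ _ K _ _ _ π => MumfordTateFor p a K π) ∧
    WeilOneOdd (fun p _ a _ _ K _ _ _ π => MumfordTateFor p a K π) :=
  ⟨weilModular mumfordTateFor, weilTwoAdic mumfordTateFor, weilOneOdd mumfordTateFor⟩

end Pool.Agent.Results.MP_33b3f9_ag.SlopesModPrime
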